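import Pool.Agent.Helper38.TH.GoalsD
import Pool.Agent.Helper94.RP.RAT
import Pool.Agent.Helper38.FD.Twist
import Pool.Agent.Helper50.RS.RS

/-!
# Project TH (MP_fc6b1e_nt), packet D_INV: conjugation of characters

If `LeopoldtFor` holds for `ξ`, then it holds for `σ ∘ ξ`, for every automorphism `σ` of `ℂ_p` over `ℚ_p`.
The proof uses the semilinear map `σ⁻¹ ⊗ 1` of `ℂ_p ⊗ U_H` and `S_RAT`.
-/

set_option autoImplicit false

namespace Pool.Agent.Helper8.TH

open NumberField Module TensorProduct Polynomial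
open Pool.Agent.Helper51.SigLeo Pool.Agent.Helper51.RP Pool.Agent.Helper42.RD
open Pool.Agent.Helper38.FD (Chr CutsOut LeopoldtFor LeopoldtOn Restricts)

section semilinear

variable {k M : Type} [Field k] [AddCommGroup M]

/-- the map `r ⊗ 1` -/
noncomputable def Th (r : k →+* k) : (k ⊗[ℤ] M) →ₗ[ℤ] (k ⊗[ℤ] M) :=
  LinearMap.rTensor M ((r : k →+ k).toIntLinearMap)

theorem th_tmul (r : k →+* k) (c : k) (m : M) : Th r (c ⊗ₜ[ℤ] m) = r c ⊗ₜ[ℤ] m := rfl

theorem th_smul (r : k →+* k) (c : k) (z : k ⊗[ℤ] M) : Th r (c • z) = r c • Th r z := by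
  induction z using TensorProduct.induction_on with
  | zero => rw [smul_zero, map_zero, smul_zero]
  | tmul x m =>
    rw [TensorProduct.smul_tmul', th_tmul, th_tmul, TensorProduct.smul_tmul', smul_eq_mul,
      smul_eq_mul, map_mul]
  | add x y hx hy => rw [smul_add, map_add, hx, hy, map_add, smul_add]

theorem th_end (r : k →+* k) (f : M →+ M) (z : k ⊗[ℤ] M) :
    Th r (extEnd f z) = extEnd f (Th r z) := by
  induction z using TensorProduct.induction_on with
  | zero => rw [map_zero, map_zero, map_zero]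
  | tmul x m =>
    rw [th_tmul]
    unfold extEnd
    rw [LinearMap.baseChange_tmul, LinearMap.baseChange_tmul, th_tmul]
  | add x y hx hy => rw [map_add, map_add, hx, hy, map_add, map_add]

theorem th_hom (r : k →+* k) (g : M →+ k) (hr : ∀ m, r (g m) = g m) (z : k ⊗[ℤ] M) :
    extHom g (Th r z) = r (extHom g z) := by
  induction z using TensorProduct.induction_on with
  | zero => rw [map_zero, map_zero, map_zero]
  | tmul x m =>
    rw [th_tmul]
    unfold extHom
    rw [LinearMap.liftBaseChange_tmul, LinearMap.liftBaseChange_tmul, smul_eq_mul, smul_eq_mul,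
      map_mul]
    have h : (g.toIntLinearMap m) = g m := rfl
    rw [h, hr]
  | add x y hx hy => rw [map_add, map_add, hx, hy, map_add, map_add]

theorem th_inv (r r' : k →+* k) (h : ∀ x, r' (r x) = x) (z : k ⊗[ℤ] M) :
    Th r' (Th r z) = z := by
  induction z using TensorProduct.induction_on with
  | zero => rw [map_zero, map_zero]
  | tmul x m => rw [th_tmul, th_tmul, h]
  | add x y hx hy => rw [map_add, map_add, hx, hy]

theorem th_chi {G : Type} [Group G] [Finite G] (r : k →+* k) (n : ℕ) (χ χ' : G →* kˣ)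
    (h : ∀ g, r (χ g : k) = (χ' g : k)) (a : G → M →+ M) (x : k ⊗[ℤ] M) :
    Th r (eChi n χ a x) = eChi n χ' a (Th r x) := by
  have hG : Fintype G := Fintype.ofFinite G
  unfold eChi
  rw [th_smul, map_inv₀, map_natCast, finsum_eq_sum_of_fintype, finsum_eq_sum_of_fintype, map_sum]
  congr 1
  apply Finset.sum_congr rfl
  intro g _
  rw [th_smul, th_end, h]

/-- linear combinations of homomorphisms -/
theorem extHom_comb (n : ℕ) (f : Fin n → M →+ k) (c : Fin n → k) (g : M →+ k)
    (h : ∀ u, g u = ∑ i, f i u * c i) (z : k ⊗[ℤ] M) :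
    extHom g z = ∑ i, extHom (f i) z * c i := by
  induction z using TensorProduct.induction_on with
  | zero =>
    rw [map_zero]
    symm
    apply Finset.sum_eq_zero
    intro i _
    rw [map_zero, zero_mul]
  | tmul x m =>
    unfold extHom
    rw [LinearMap.liftBaseChange_tmul, smul_eq_mul]
    have h1 : (g.toIntLinearMap m) = g m := rfl
    rw [h1, h, Finset.mul_sum]
    apply Finset.sum_congr rfl
    intro i _
    rw [LinearMap.liftBaseChange_tmul, smul_eq_mul]
    have h2 : ((f i).toIntLinearMap m) = f i m := rfl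
    rw [h2, mul_assoc]
  | add x y hx hy =>
    rw [map_add, hx, hy, ← Finset.sum_add_distrib]
    apply Finset.sum_congr rfl
    intro i _
    rw [map_add, add_mul]

end semilinear

/-- an embedding of `H` above an embedding of the form `ιp ∘ σ₀` is of the form `ιp ∘ σ'` -/
theorem exists_lift {K H Ω k : Type} [Field K] [Field H] [Field Ω] [Field k] [Algebra K H]
    [Algebra.IsAlgebraic K H] [IsAlgClosed Ω] (ιp : Ω →+* k) (σ₀ : K →+* Ω) (τ : H →+* k)
    (h : τ.comp (algebraMap K H) = ιp.comp σ₀) : ∃ σ' : H →+* Ω, τ = ιp.comp σ' := by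
  have hr : ∀ x : H, ∃ y : Ω, ιp y = τ x := by
    intro x
    have hx : IsIntegral K x := Algebra.IsIntegral.isIntegral x
    have h0 : minpoly K x ≠ 0 := minpoly.ne_zero hx
    have h1 : ((minpoly K x).map σ₀) ≠ 0 := (Polynomial.map_ne_zero_iff σ₀.injective).mpr h0
    have h2 : (((minpoly K x).map σ₀).map ιp) ≠ 0 :=
      (Polynomial.map_ne_zero_iff ιp.injective).mpr h1
    have h3 : Polynomial.eval (τ x) (((minpoly K x).map σ₀).map ιp) = 0 := by
      rw [Polynomial.map_map, ← h, ← Polynomial.map_map, Polynomial.eval_map,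
        Polynomial.eval₂_hom]
      have h4 : Polynomial.eval x ((minpoly K x).map (algebraMap K H)) = 0 := by
        rw [Polynomial.eval_map_algebraMap]
        exact minpoly.aeval K x
      rw [h4, map_zero]
    have h5 : τ x ∈ (((minpoly K x).map σ₀).map ιp).roots := (Polynomial.mem_roots h2).mpr h3
    rw [Polynomial.Splits.roots_map (IsAlgClosed.splits _)] at h5
    obtain ⟨y, _, hy⟩ := Multiset.mem_map.mp h5
    exact ⟨y, hy⟩
  choose f hf using hr
  refine ⟨{ toFun := f, map_one' := ?_, map_mul' := ?_, map_zero' := ?_, map_add' := ?_ }, ?_⟩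
  · apply ιp.injective
    rw [hf, map_one, map_one]
  · intro x y
    apply ιp.injective
    rw [hf, map_mul, map_mul, hf, hf]
  · apply ιp.injective
    rw [hf, map_zero, map_zero]
  · intro x y
    apply ιp.injective
    rw [hf, map_add, map_add, hf, hf]
  · ext x
    exact (hf x).symm

theorem d_inv : Pool.Agent.Helper38.TH.D_INV := by
  intro p _ K _ _ ιinf ιp Lg S hT ξ hξ σ
  obtain ⟨H, hfin, hcut, χ', hχ', hinj⟩ := hξ
  have hnf : NumberField H := NumberField.of_module_finite K H
  have hne : Nonempty (AlgebraicClosure ℚ →+* ℂ_[p]) :=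
    Pool.Agent.Helper50.RS.nonempty_hom ℚ ℂ_[p]
  let sr : ℂ_[p] →+* ℂ_[p] := (σ : ℂ_[p] →+* ℂ_[p])
  let si : ℂ_[p] →+* ℂ_[p] := (σ.symm : ℂ_[p] →+* ℂ_[p])
  have hsi : ∀ x, si (sr x) = x := fun x => σ.symm_apply_apply x
  have his : ∀ x, sr (si x) = x := fun x => σ.apply_symm_apply x
  refine ⟨H, hfin, ?_, (Units.map (σ : ℂ_[p] →* ℂ_[p])).comp χ', ?_, ?_⟩
  · intro g
    rw [← hcut g, MonoidHom.comp_apply]
    constructor
    · intro h
      apply Units.ext
      have h1 := congrArg Units.val h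
      have h2 : σ ((ξ g : ℂ_[p]ˣ) : ℂ_[p]) = 1 := h1
      have h3 := congrArg σ.symm h2
      rw [σ.symm_apply_apply, map_one] at h3
      exact h3
    · intro h
      rw [h, map_one]
  · intro g h hr
    rw [MonoidHom.comp_apply, MonoidHom.comp_apply, hχ' g h hr]
  · intro x hx
    -- the conjugate vector
    have hconj : Th si (eChi (finrank K H) ((Units.map (σ : ℂ_[p] →* ℂ_[p])).comp χ') unitsHom x) =
        eChi (finrank K H) χ' unitsHom (Th si x) :=
      th_chi si (finrank K H) _ χ' (fun g => hsi _) unitsHom x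
    obtain ⟨n, f, hf1, hf2⟩ := Pool.Agent.Helper94.RP.s_rat p ℂ_[p] hne Lg H
      (above (TSet ιinf ιp S)) (by
        intro τ₁ τ₂ h
        exact hT (τ₁.comp (algebraMap K H)) (τ₂.comp (algebraMap K H))
          (fun y => h (algebraMap K H y)))
    have h1 := hf1 (eChi (finrank K H) ((Units.map (σ : ℂ_[p] →* ℂ_[p])).comp χ') unitsHom x) (by
      intro τ hτ
      obtain ⟨σ₀, hσ₀, hτ'⟩ := hτ
      obtain ⟨σ', rfl⟩ := exists_lift ιp σ₀ τ hτ'
      apply hx
      refine ⟨σ', ?_, rfl⟩
      have h2 : σ'.comp (algebraMap K H) = σ₀ := by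
        ext y
        apply ιp.injective
        exact RingHom.congr_fun hτ' y
      rw [h2]
      exact hσ₀)
    have h3 : eChi (finrank K H) χ' unitsHom (Th si x) = 0 := by
      apply hinj
      rintro ℓ ⟨σ', hσ', rfl⟩
      have h4 : ιp.comp σ' ∈ (above (TSet ιinf ιp S) : Set (H →+* ℂ_[p])) :=
        ⟨σ'.comp (algebraMap K H), hσ', rfl⟩
      obtain ⟨c, hc⟩ := hf2 _ h4
      rw [extHom_comb n (fun i => ((algebraMap ℚ_[p] ℂ_[p] : ℚ_[p] →+* ℂ_[p]) :
        ℚ_[p] →+ ℂ_[p]).comp (f i)) c (logUnits Lg (ιp.comp σ')) (fun u => by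
          rw [hc u]
          apply Finset.sum_congr rfl
          intro i _
          rw [Algebra.smul_def]
          rfl)]
      apply Finset.sum_eq_zero
      intro i _
      rw [← hconj, th_hom si _ (fun m => σ.symm.commutes (f i m)), h1 i, map_zero, zero_mul]
    have h5 := congrArg (Th sr) hconj
    rw [th_inv si sr his, h3, map_zero] at h5
    exact h5

end Pool.Agent.Helper8.TH
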