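import Pool.Agent.Helper63.TH.Goals
import Pool.Agent.Helper35.PT.LN

namespace Pool.Agent.Helper8.TH

open Pool.Agent.Helper53.PT Pool.Agent.Helper63.TH
open Pool.Agent.Helper63.P705 (NumOK sg2N)

/-- `S = Γ(1+θ)Γ(1-θ)` is between `1` and `2` -/
theorem S_bd {θ : ℝ} (h0 : 0 < θ) (h1 : θ ≤ 1 / 2) :
    1 ≤ Real.Gamma (1 + θ) * Real.Gamma (1 - θ) ∧ Real.Gamma (1 + θ) * Real.Gamma (1 - θ) ≤ 2 := by
  have e1 : Real.Gamma (1 + θ) = θ * Real.Gamma θ := by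
    rw [add_comm]; exact Real.Gamma_add_one h0.ne'
  have e2 : Real.Gamma (1 + θ) * Real.Gamma (1 - θ) = Real.pi * θ / Real.sin (Real.pi * θ) := by
    rw [e1, mul_assoc, Real.Gamma_mul_Gamma_one_sub]; ring
  have hp : 0 < Real.pi := Real.pi_pos
  have hx : 0 < Real.pi * θ := by positivity
  have hx2 : Real.pi * θ ≤ Real.pi / 2 := by nlinarith
  have hs : 0 < Real.sin (Real.pi * θ) := Real.sin_pos_of_pos_of_lt_pi hx (by linarith)
  have hs1 : Real.sin (Real.pi * θ) ≤ Real.pi * θ := Real.sin_le hx.le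
  have hs2 : 2 / Real.pi * (Real.pi * θ) ≤ Real.sin (Real.pi * θ) := Real.mul_le_sin hx.le hx2
  have hs3 : 2 / Real.pi * (Real.pi * θ) = 2 * θ := by field_simp
  rw [hs3] at hs2
  rw [e2]
  constructor
  · rw [le_div_iff₀ hs]; linarith
  · rw [div_le_iff₀ hs]
    have := Real.pi_le_four
    nlinarith

theorem shift_lt (y k : ℕ) : (y : ℝ) / 2 ^ k ≤ ((y >>> k : ℕ) : ℝ) + 1 := by
  rw [Nat.shiftRight_eq_div_pow]
  have h := Nat.lt_floor_add_one ((y : ℝ) / (2 ^ k : ℕ))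
  rw [Nat.floor_div_eq_div] at h
  push_cast at h
  exact_mod_cast h.le

/-- the argument -/
def xx (b s : ℕ) : ℕ := ((4096 - b) * 762123384786) >>> 13 + 1 + ((N.lnU ((1 <<< 80) / (s + 2))) >>> 1 + 1)

theorem pv_eq (b : ℕ) : pv b = N.expLo (xx b (sg2N b)) := rfl

theorem main (hL : GLN) (b s : ℕ) (S : ℝ) (hb : b ≤ 4096)
    (hs : |(s : ℝ) / 2 ^ 40 - S| ≤ 2⁻¹ ^ 39) (h1 : 1 ≤ S) (h2 : S ≤ 2) :
    (1 / 2 - (b : ℝ) / 8192) * Real.log 2 + Real.log S / 2 ≤ vR (xx b s) := by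
  have hv : vR (xx b s) = ((((4096 - b) * 762123384786) >>> 13 : ℕ) + 1 +
      (((N.lnU ((1 <<< 80) / (s + 2))) >>> 1 : ℕ) + 1) : ℝ) / 2 ^ 40 := by
    unfold vR xx; push_cast; rfl
  rw [hv]
  generalize hw : (1 <<< 80) / (s + 2) = v
  have hs' := abs_le.1 hs
  have hS1 : S ≤ ((s : ℝ) + 2) / 2 ^ 40 := by
    have e : ((s : ℝ) + 2) / 2 ^ 40 = (s : ℝ) / 2 ^ 40 + 2⁻¹ ^ 39 := by norm_num; ring
    rw [e]; linarith
  have hS2 : ((s : ℝ) + 2) / 2 ^ 40 ≤ 4 := by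
    have e : ((s : ℝ) + 2) / 2 ^ 40 = (s : ℝ) / 2 ^ 40 + 2⁻¹ ^ 39 := by norm_num; ring
    have e2 : (2⁻¹ : ℝ) ^ 39 ≤ 1 / 2 := by norm_num
    rw [e]; linarith
  have hs0 : (0 : ℝ) < (s : ℝ) + 2 := by positivity
  have hsn : s + 2 ≤ 2 ^ 42 := by
    have : (s : ℝ) + 2 ≤ 2 ^ 42 := by
      rw [div_le_iff₀ (by positivity)] at hS2
      linarith
    exact_mod_cast this
  have hv0 : 0 < v := by
    rw [← hw]
    refine Nat.div_pos ?_ (by omega)
    rw [Nat.one_shiftLeft]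
    exact le_trans hsn (Nat.pow_le_pow_right (by norm_num) (by norm_num))
  have hvle : (v : ℝ) * ((s : ℝ) + 2) ≤ 2 ^ 80 := by
    have h3 : v * (s + 2) ≤ 2 ^ 80 := by
      rw [← hw, ← Nat.one_shiftLeft 80]; exact Nat.div_mul_le_self _ _
    exact_mod_cast h3
  have hSp : 0 < S := by linarith
  have hvS : vR v ≤ 1 / S := by
    unfold vR
    rw [div_le_div_iff₀ (by positivity) hSp]
    have hvp : (0 : ℝ) ≤ v := by positivity
    have h4 : (v : ℝ) * S ≤ v * (((s : ℝ) + 2) / 2 ^ 40) := mul_le_mul_of_nonneg_left hS1 hvp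
    have h5 : (v : ℝ) * (((s : ℝ) + 2) / 2 ^ 40) ≤ 2 ^ 40 := by
      rw [← mul_div_assoc, div_le_iff₀ (by positivity)]
      calc (v : ℝ) * ((s : ℝ) + 2) ≤ 2 ^ 80 := hvle
        _ = 2 ^ 40 * 2 ^ 40 := by norm_num
    linarith
  have hlog : Real.log S ≤ vR (N.lnU v) := by
    have h6 := hL.2.1 v (1 / S) hv0 hvS
    rw [one_div, Real.log_inv, neg_neg] at h6
    exact h6
  have h7 := shift_lt (N.lnU v) 1
  have h8 := shift_lt ((4096 - b) * 762123384786) 13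
  have hlog2 : 1099511627776 * Real.log 2 ≤ (762123384786 : ℝ) := Pool.Agent.Helper35.PT.log2_bd.2
  unfold vR at hlog
  rw [le_div_iff₀ (by positivity)] at hlog ⊢
  push_cast [Nat.cast_sub hb] at h8
  generalize ((N.lnU v : ℕ) : ℝ) = L at hlog h7
  generalize (((N.lnU v) >>> 1 : ℕ) : ℝ) = L1 at h7 ⊢
  generalize ((((4096 - b) * 762123384786) >>> 13 : ℕ) : ℝ) = L2 at h8 ⊢
  have hbr : (b : ℝ) ≤ 4096 := by exact_mod_cast hb
  have h9 : ((4096 : ℝ) - b) * (1099511627776 * Real.log 2) ≤ (4096 - b) * 762123384786 :=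
    mul_le_mul_of_nonneg_left hlog2 (by linarith)
  have e3 : ((1 : ℝ) / 2 - (b : ℝ) / 8192) * Real.log 2 * 2 ^ 40 =
      ((4096 : ℝ) - b) * (1099511627776 * Real.log 2) / 8192 := by norm_num; ring
  have e4 : ((4096 : ℝ) - b) * 762123384786 / 2 ^ 13 = ((4096 : ℝ) - b) * 762123384786 / 8192 := by
    norm_num
  rw [e4] at h8
  rw [add_mul, e3]
  have h10 : ((4096 : ℝ) - b) * (1099511627776 * Real.log 2) / 8192 ≤
      ((4096 : ℝ) - b) * 762123384786 / 8192 := by gcongr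
  linarith

theorem P_eq {θ : ℝ} (h0 : 0 < θ) (h1 : θ ≤ 1 / 2) : P θ = Real.pi / 2 *
    Real.exp (-((1 / 2 - θ) * Real.log 2 +
      Real.log (Real.Gamma (1 + θ) * Real.Gamma (1 - θ)) / 2)) := by
  have hS := (S_bd h0 h1).1
  unfold P sg
  generalize Real.Gamma (1 + θ) * Real.Gamma (1 - θ) = S at hS ⊢
  have hSp : 0 < S := by linarith
  rw [Real.sqrt_eq_rpow, Real.rpow_def_of_pos hSp, Real.rpow_def_of_pos (by norm_num : (0 : ℝ) < 2),
    mul_div_assoc, ← Real.exp_sub]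
  congr 2
  ring

theorem gPV : GPV := by
  intro hE hL hN b hb hb'
  have hb1 : (0 : ℝ) < (b : ℝ) / 8192 := by
    have : (0 : ℝ) < b := by exact_mod_cast (by omega : 0 < b)
    positivity
  have hb2 : (b : ℝ) / 8192 ≤ 1 / 2 := by
    have : (b : ℝ) ≤ 4096 := by exact_mod_cast hb'.le
    rw [div_le_iff₀ (by norm_num)]; linarith
  have hS := S_bd hb1 hb2
  have h1 := main hL b (sg2N b) _ hb'.le (hN.sg2 b hb hb') hS.1 hS.2
  rw [P_eq hb1 hb2, pv_eq]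
  refine mul_le_mul_of_nonneg_left ?_ (by have := Real.pi_pos; positivity)
  refine le_trans (hE (xx b (sg2N b))).2 (Real.exp_le_exp.2 ?_)
  linarith

end Pool.Agent.Helper8.TH
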